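import Pool.Agent.TH265.V.Main
import Pool.Agent.X321.UA.Main
import Pool.Agent.X321.DC.Main
set_option autoImplicit false

/-!
The exact leading terms of the regulators on the curves `(1 - y^N) (1 - x^M) (1 - (x/e)^M) = 1`.
-/

namespace Pool.Agent.X321.FR

open Pool.Agent.TH826.MK

open Pool.Agent.TH826.MH (wt abs_wt_le wt_self wt_ne)

open Pool.Agent.TH265.V

open Pool.Agent.X321.BL (abs_det_near)

universe v

/-- the matrix of the leading coefficients -/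
noncomputable def W (p r : ℕ) : Matrix (Fin (r + 1) × Fin p) (Fin (r + 1) × Fin p) ℝ :=
  Matrix.of fun t s => if s.1 = t.1 then wt t.2 s.2 else 0

theorem det_W (p r : ℕ) : (W p r).det = 1 := by
  classical
  rw [Pool.Agent.X321.UA.det_of_tri (fun t : Fin (r + 1) × Fin p => (t.2 : ℕ)) (W p r)
    fun t s h => ?_]
  · refine Finset.prod_eq_one fun t _ => ?_
    unfold W
    rw [Matrix.of_apply, if_pos rfl, wt_self]
  · unfold W at h
    rw [Matrix.of_apply] at h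
    by_cases h1 : s.1 = t.1
    · rw [if_pos h1] at h
      rcases wt_ne h with h2 | h2
      · exact Or.inl (Prod.ext h1.symm h2.symm)
      · right
        show (s.2 : ℕ) < (t.2 : ℕ)
        omega
    · rw [if_neg h1] at h
      exact absurd rfl h

section roots

variable {q : ℕ} {w u : ℂ}

theorem sum_lev (q : ℕ) : ∑ i : Fin (2 * q + 1 + 1), (((i : ℕ) / (q + 1) : ℕ) : ℝ) = q + 1 := by
  rw [Fin.sum_univ_eq_sum_range (fun i => (((i / (q + 1) : ℕ)) : ℝ)) (2 * q + 1 + 1),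
    show 2 * q + 1 + 1 = (q + 1) + (q + 1) by ring, Finset.sum_range_add]
  have h1 : ∑ x ∈ Finset.range (q + 1), (((x / (q + 1) : ℕ)) : ℝ) = 0 := by
    refine Finset.sum_eq_zero fun x hx => ?_
    rw [Nat.div_eq_of_lt (Finset.mem_range.1 hx), Nat.cast_zero]
  have h2 : ∑ x ∈ Finset.range (q + 1), ((((q + 1 + x) / (q + 1) : ℕ)) : ℝ) = q + 1 := by
    rw [Finset.sum_congr rfl fun x hx => ?_]
    · rw [Finset.sum_const, Finset.card_range, nsmul_eq_mul, mul_one]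
      push_cast
      ring
    · rw [Nat.add_div_left _ (Nat.succ_pos q), Nat.div_eq_of_lt (Finset.mem_range.1 hx)]
      norm_num
  rw [h1, h2, zero_add]

theorem Dd_eq (hw : IsPrimitiveRoot w (q + 1)) (i0 : Fin (2 * q + 1 + 1)) :
    Dd (al q w u) i0 =
      ((2 * q + 2 : ℝ) * (((i0 : ℕ) / (q + 1) : ℕ) : ℝ) - (q + 1)) * Real.log ‖u‖ := by
  unfold Dd
  have h1 : ∀ i : Fin (2 * q + 1 + 1), Real.log ‖al q w u i0‖ - Real.log ‖al q w u i‖ =
      ((((i0 : ℕ) / (q + 1) : ℕ) : ℝ) - (((i : ℕ) / (q + 1) : ℕ) : ℝ)) * Real.log ‖u‖ := by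
    intro i
    rw [norm_al hw, norm_al hw, Real.log_pow, Real.log_pow]
    ring
  rw [Finset.sum_congr rfl fun i _ => h1 i, ← Finset.sum_mul, Finset.sum_sub_distrib, sum_lev,
    Finset.sum_const, Finset.card_univ, Fintype.card_fin, nsmul_eq_mul]
  push_cast
  ring

/-- the height of the unit at the place of the loop number `i`, positive -/
noncomputable def ht {K : Type*} [Field K] (q : ℕ) (σ τ : K →+* ℂ) (e : K)
    (i : Fin (2 * q + 1 + 1)) : ℝ :=
  if (i : ℕ) ≤ q then -Real.log ‖τ e‖ else Real.log ‖σ e‖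

end roots

/-- **The regulators up to a bounded error.** -/
theorem exists_reg (p q : ℕ) : ∃ c B : ℝ, 2 ≤ c ∧ 0 ≤ B ∧
    ∀ {K : Type v} [Field K] (σ τ : K →+* ℂ) (ζ ω e : K), IsPrimitiveRoot ζ (p + 1) →
      IsPrimitiveRoot ω (q + 1) → c ≤ ‖σ e‖ → ‖τ e‖ * c ≤ 1 →
      ∃ Γ : Fin (2 * q + 1 + 1) × Fin p → Torus (Opn p ζ (al q ω e)) 1,
        (∀ t θ x, (Γ t).e θ (cst0 p ζ (al q ω e) x) = pls q σ τ t.1 x) ∧
        (∀ t s, |(Γ t).reg (symb (sym p ζ (al q ω e) s)) +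
          2 * Real.pi * (q + 1) * ht q σ τ e t.1 * W p (2 * q + 1) t s| ≤ B) := by
  obtain ⟨d, hd0, hd1, hd⟩ := exists_sep q
  obtain ⟨L0, B0, hL0, hB0, h⟩ := exists_unif.{v} p (2 * q + 1) d
  refine ⟨max 2 (Real.exp L0), B0, le_max_left _ _, hB0, ?_⟩
  intro K _ σ τ ζ ω e hζ hω hσ hτ
  have hσ2 : 2 ≤ ‖σ e‖ := (le_max_left _ _).trans hσ
  have hσD : Real.exp L0 ≤ ‖σ e‖ := (le_max_right _ _).trans hσ
  have he : e ≠ 0 := by
    rintro rfl
    rw [map_zero, norm_zero] at hσ2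
    linarith
  have hτe : τ e ≠ 0 := (map_ne_zero τ).2 he
  have hτp : 0 < ‖τ e‖ := norm_pos_iff.2 hτe
  have hτ2 : ‖τ e‖ ≤ 1 / 2 := by
    have := (mul_le_mul_of_nonneg_left (le_max_left 2 (Real.exp L0)) hτp.le).trans hτ
    linarith
  have hτD : ‖τ e‖ ≤ Real.exp (-L0) := by
    have := (mul_le_mul_of_nonneg_left (le_max_right 2 (Real.exp L0)) hτp.le).trans hτ
    rw [Real.exp_neg, ← one_div, le_div_iff₀ (Real.exp_pos _)]
    exact this
  have hlσ : L0 ≤ Real.log ‖σ e‖ := by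
    have := Real.log_le_log (Real.exp_pos _) hσD
    rwa [Real.log_exp] at this
  have hlτ : L0 ≤ -Real.log ‖τ e‖ := by
    have := Real.log_le_log hτp hτD
    rw [Real.log_exp] at this
    linarith
  have hmap : ∀ v : K →+* ℂ, (fun k => v (al q ω e k)) = al q (v ω) (v e) := by
    intro v
    funext k
    unfold al
    rw [map_mul, map_pow, map_pow]
  have hωm : ∀ v : K →+* ℂ, IsPrimitiveRoot (v ω) (q + 1) := fun v =>
    hω.map_of_injective v.injective
  have hcase : ∀ i : Fin (2 * q + 1 + 1),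
      ((i : ℕ) / (q + 1) = 0 ∧ pls q σ τ i = τ ∧ ht q σ τ e i = -Real.log ‖τ e‖) ∨
      ((i : ℕ) / (q + 1) = 1 ∧ pls q σ τ i = σ ∧ ht q σ τ e i = Real.log ‖σ e‖) := by
    intro i
    rcases lev i with ⟨h1, h2⟩ | ⟨h1, h2⟩
    · left
      refine ⟨h1, ?_, ?_⟩
      · unfold pls
        rw [if_pos (by omega)]
      · unfold ht
        rw [if_pos (by omega)]
    · right
      refine ⟨h1, ?_, ?_⟩
      · unfold pls
        rw [if_neg (by omega)]
      · unfold ht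
        rw [if_neg (by omega)]
  have hS : ∀ i, Sep d (fun k => pls q σ τ i (al q ω e k)) i := by
    intro i
    rw [hmap]
    rcases hcase i with ⟨h1, h2, -⟩ | ⟨h1, h2, -⟩
    · rw [h2]
      exact sep_low hd0 hd1 (hωm τ) (hd _ (hωm τ)) hτe hτ2 h1
    · rw [h2]
      exact sep_high hd0 hd1 (hωm σ) (hd _ (hωm σ)) hσ2 h1
  have hDd : ∀ i, Dd (fun k => pls q σ τ i (al q ω e k)) i = (q + 1) * ht q σ τ e i := by
    intro i
    rw [hmap, Dd_eq (hωm _)]
    rcases hcase i with ⟨h1, h2, h3⟩ | ⟨h1, h2, h3⟩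
    · rw [h1, h2, h3]
      push_cast
      ring
    · rw [h1, h2, h3]
      push_cast
      ring
  have hL : ∀ i, L0 ≤ ht q σ τ e i ∧ 0 ≤ ht q σ τ e i := by
    intro i
    rcases hcase i with ⟨-, -, h3⟩ | ⟨-, -, h3⟩ <;> rw [h3] <;> constructor <;> linarith
  have hq0 : (0 : ℝ) ≤ q := Nat.cast_nonneg q
  have hval : ∀ i, |Real.log ‖pls q σ τ i (al q ω e i)‖| ≤
      Dd (fun k => pls q σ τ i (al q ω e k)) i ∧
      L0 ≤ Dd (fun k => pls q σ τ i (al q ω e k)) i := by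
    intro i
    have e1 : pls q σ τ i (al q ω e i) = al q (pls q σ τ i ω) (pls q σ τ i e) i :=
      congrFun (hmap (pls q σ τ i)) i
    rw [hDd, e1, norm_al (hωm _)]
    obtain ⟨hi1, hi2⟩ := hL i
    have h5 : ht q σ τ e i ≤ (q + 1) * ht q σ τ e i := by nlinarith
    refine ⟨?_, hi1.trans h5⟩
    rcases hcase i with ⟨h1, h2, h3⟩ | ⟨h1, h2, h3⟩
    · rw [h1, pow_zero, Real.log_one, abs_zero]
      positivity
    · rw [h1, pow_one, h2, ← h3, abs_of_nonneg hi2]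
      exact h5
  choose Γ hΓ1 hΓ2 using fun t : Fin (2 * q + 1 + 1) × Fin p =>
    h (pls q σ τ t.1) ζ (al q ω e) t.1 hζ (hS t.1) (hval t.1).1 (hval t.1).2 t.2
  refine ⟨Γ, fun t => hΓ1 t, fun t s => ?_⟩
  have h1 := hΓ2 t s
  rw [hDd] at h1
  refine le_trans (le_of_eq ?_) h1
  congr 1
  unfold W
  rw [Matrix.of_apply]
  split_ifs <;> ring

theorem prod_ht {K : Type*} [Field K] (p q : ℕ) (σ τ : K →+* ℂ) (e : K) :
    ∏ t : Fin (2 * q + 1 + 1) × Fin p, (-(2 * Real.pi * (q + 1) * ht q σ τ e t.1)) =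
      ((2 * Real.pi * (q + 1)) ^ 2 * (Real.log ‖σ e‖ * -Real.log ‖τ e‖)) ^ ((q + 1) * p) := by
  have h1 : ∏ i : Fin (2 * q + 1 + 1), (-(2 * Real.pi * (q + 1) * ht q σ τ e i)) =
      ((2 * Real.pi * (q + 1)) ^ 2 * (Real.log ‖σ e‖ * -Real.log ‖τ e‖)) ^ (q + 1) := by
    have h2 : ∀ i : Fin (2 * q + 1 + 1), -(2 * Real.pi * (q + 1) * ht q σ τ e i) =
        (fun i : ℕ => if i ≤ q then 2 * Real.pi * (q + 1) * Real.log ‖τ e‖ else
          -(2 * Real.pi * (q + 1) * Real.log ‖σ e‖)) (i : ℕ) := by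
      intro i
      unfold ht
      show _ = if (i : ℕ) ≤ q then 2 * Real.pi * (q + 1) * Real.log ‖τ e‖ else
          -(2 * Real.pi * (q + 1) * Real.log ‖σ e‖)
      split_ifs <;> ring
    rw [Finset.prod_congr rfl fun i _ => h2 i, Fin.prod_univ_eq_prod_range
      (fun i : ℕ => if i ≤ q then 2 * Real.pi * (q + 1) * Real.log ‖τ e‖ else
          -(2 * Real.pi * (q + 1) * Real.log ‖σ e‖)) (2 * q + 1 + 1),
      show 2 * q + 1 + 1 = (q + 1) + (q + 1) by ring, Finset.prod_range_add]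
    rw [Finset.prod_congr rfl fun i hi => if_pos (Nat.lt_succ_iff.1 (Finset.mem_range.1 hi)),
      Finset.prod_const, Finset.card_range,
      Finset.prod_congr rfl fun i _ => if_neg (show ¬(q + 1 + i ≤ q) by omega),
      Finset.prod_const, Finset.card_range, ← mul_pow]
    congr 1
    ring
  rw [Fintype.prod_prod_type]
  simp only [Finset.prod_const, Finset.card_univ, Fintype.card_fin]
  rw [Finset.prod_pow, h1, ← pow_mul]

theorem det_limit (p q : ℕ) (B : ℝ) {ε : ℝ} (hε : 0 < ε) : ∃ T : ℝ, 0 < T ∧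
    ∀ (h : Fin (2 * q + 1 + 1) → ℝ) (R : Matrix (Fin (2 * q + 1 + 1) × Fin p)
      (Fin (2 * q + 1 + 1) × Fin p) ℝ), (∀ i, T ≤ h i) →
      (∀ t s, |R t s + 2 * Real.pi * (q + 1) * h t.1 * W p (2 * q + 1) t s| ≤ B) →
      |R.det / ∏ t : Fin (2 * q + 1 + 1) × Fin p, (-(2 * Real.pi * (q + 1) * h t.1)) - 1| ≤ ε := by
  obtain ⟨δ, hδ, hdet⟩ := abs_det_near (W p (2 * q + 1)) hε
  rw [det_W] at hdet
  refine ⟨(|B| + 1) / δ, by positivity, fun h R hh hR => ?_⟩
  have hpi := Real.pi_gt_three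
  have hq0 : (0 : ℝ) ≤ q := Nat.cast_nonneg q
  have hT : 0 < (|B| + 1) / δ := by positivity
  have hpos : ∀ i, 0 < 2 * Real.pi * (q + 1) * h i := fun i => by
    have := lt_of_lt_of_le hT (hh i)
    positivity
  have h1 : R.det = (∏ t : Fin (2 * q + 1 + 1) × Fin p, (-(2 * Real.pi * (q + 1) * h t.1))) *
      (Matrix.of fun t s => R t s / (-(2 * Real.pi * (q + 1) * h t.1))).det := by
    rw [← Matrix.det_mul_column]
    congr 1
    ext t s
    rw [Matrix.of_apply, Matrix.of_apply, mul_div_cancel₀ _ (neg_ne_zero.2 (hpos _).ne')]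
  rw [h1, mul_div_cancel_left₀ _ (Finset.prod_ne_zero_iff.2 fun t _ =>
    neg_ne_zero.2 (hpos _).ne')]
  refine (hdet _ fun t s => ?_).le
  rw [Matrix.of_apply]
  have e1 : R t s / (-(2 * Real.pi * (q + 1) * h t.1)) - W p (2 * q + 1) t s =
      -((R t s + 2 * Real.pi * (q + 1) * h t.1 * W p (2 * q + 1) t s) /
        (2 * Real.pi * (q + 1) * h t.1)) := by
    rw [add_div, mul_div_cancel_left₀ _ (hpos t.1).ne', div_neg]
    ring
  rw [e1, abs_neg, abs_div, abs_of_pos (hpos _), div_lt_iff₀ (hpos _)]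
  have h2 : |B| + 1 ≤ δ * h t.1 := by
    have := hh t.1
    rw [div_le_iff₀ hδ] at this
    linarith
  have h3 : 0 < h t.1 := lt_of_lt_of_le hT (hh _)
  have h4 : δ * h t.1 ≤ δ * (2 * Real.pi * (q + 1) * h t.1) := by
    refine mul_le_mul_of_nonneg_left ?_ hδ.le
    have h5 : (1 : ℝ) ≤ 2 * Real.pi * (q + 1) := by nlinarith
    nlinarith
  have h6 := le_abs_self B
  linarith [hR t s]

/-- **The regulators up to a bounded error and the leading term of the determinant.** -/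
theorem exists_main (p q : ℕ) : ∃ B : ℝ, 0 ≤ B ∧ ∀ ε : ℝ, 0 < ε → ∃ c : ℝ, 2 ≤ c ∧
    ∀ {K : Type v} [Field K] (σ τ : K →+* ℂ) (ζ ω e : K), IsPrimitiveRoot ζ (p + 1) →
      IsPrimitiveRoot ω (q + 1) → c ≤ ‖σ e‖ → ‖τ e‖ * c ≤ 1 →
      ∃ Γ : Fin (2 * q + 1 + 1) × Fin p → Torus (Opn p ζ (al q ω e)) 1,
        (∀ t θ x, (Γ t).e θ (cst0 p ζ (al q ω e) x) = pls q σ τ t.1 x) ∧
        (∀ t s, |(Γ t).reg (symb (sym p ζ (al q ω e) s)) +
          2 * Real.pi * (q + 1) * ht q σ τ e t.1 * W p (2 * q + 1) t s| ≤ B) ∧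
        |(Matrix.of fun t s => (Γ t).reg (symb (sym p ζ (al q ω e) s))).det /
          ((2 * Real.pi * (q + 1)) ^ 2 * (Real.log ‖σ e‖ * -Real.log ‖τ e‖)) ^ ((q + 1) * p) -
            1| ≤ ε := by
  obtain ⟨c, B, hc, hB, h⟩ := exists_reg.{v} p q
  refine ⟨B, hB, fun ε hε => ?_⟩
  obtain ⟨T, hT, hlim⟩ := det_limit p q B hε
  refine ⟨max c (Real.exp T), hc.trans (le_max_left _ _), ?_⟩
  intro K _ σ τ ζ ω e hζ hω hσ hτ
  obtain ⟨Γ, h1, h2⟩ := h σ τ ζ ω e hζ hω ((le_max_left _ _).trans hσ)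
    ((mul_le_mul_of_nonneg_left (le_max_left _ _) (norm_nonneg _)).trans hτ)
  refine ⟨Γ, h1, h2, ?_⟩
  have hσ2 : 2 ≤ ‖σ e‖ := hc.trans ((le_max_left _ _).trans hσ)
  have he : e ≠ 0 := by
    rintro rfl
    rw [map_zero, norm_zero] at hσ2
    linarith
  have hτp : 0 < ‖τ e‖ := norm_pos_iff.2 ((map_ne_zero τ).2 he)
  have hlσ : T ≤ Real.log ‖σ e‖ := by
    have := Real.log_le_log (Real.exp_pos _) ((le_max_right _ _).trans hσ)
    rwa [Real.log_exp] at this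
  have hlτ : T ≤ -Real.log ‖τ e‖ := by
    have h3 := (mul_le_mul_of_nonneg_left (le_max_right c (Real.exp T)) hτp.le).trans hτ
    have h4 : ‖τ e‖ ≤ Real.exp (-T) := by
      rw [Real.exp_neg, ← one_div, le_div_iff₀ (Real.exp_pos _)]
      exact h3
    have := Real.log_le_log hτp h4
    rw [Real.log_exp] at this
    linarith
  have h5 := hlim (fun i => ht q σ τ e i) (Matrix.of fun t s =>
    (Γ t).reg (symb (sym p ζ (al q ω e) s))) (fun i => by
      unfold ht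
      split_ifs
      · exact hlτ
      · exact hlσ) (fun t s => h2 t s)
  rw [prod_ht] at h5
  exact h5

end Pool.Agent.X321.FR
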